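import Pool.Agent.Helper17.RV.Cover

set_option autoImplicit false

/-!
# Random abelian covers of general type of an arbitrary projective variety

Let `V` be an arbitrary projective variety over `ℚ` (with any singularities) of dimension `m` in
projective `n`-space, defined by a set `E` of forms that generates a prime ideal. Let integers
`k_i ≥ 1` and `e_i ≥ 0` be given, `i = 1, …, s`. For integral forms `F_1, …, F_s` of degrees
`k_i e_i` let `V^F` be the cover

  `w_1 ^ (k_1) = F_1 (x), …, w_s ^ (k_s) = F_s (x)`,   `x ∈ V`,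

of `V` (for `s = 1` the cyclic covers of degree `k` branched along the section of `V` by a
hypersurface of degree `k e`, for instance the double covers `w ^ 2 = F (x)`).

If `V` is smooth and `L` is the hyperplane class, then for general `F` the cover is smooth and its
canonical class is the pull-back of `K_V + (∑ (k_i - 1) e_i) L`. By Mori and Fujita it is ample, and
the cover is of general type, as soon as

* `∑ (k_i - 1) e_i ≥ m + 2`, or
* `∑ (k_i - 1) e_i ≥ m + 1` and `V` is not a linear subspace.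

In both cases, and for every `V`, the proportion of the `F` with coefficients of absolute value at
most `H` for which the cover has a rational point over a point of `V` of height at most `B` is, for
all `H, B ≥ 1`,

  at most `C H ^ (-σ) (1 + B ^ (θ + ∑ e_i) / H ^ (∑ k_i e_i))`,   `σ = ∑ (1 - 1 / k_i)`,

with `θ = m + 1` in the first case and `θ = m + 1 - 1 / (m + 3)` in the second one, and at least
`c H ^ (-σ)` as soon as `V` has a rational point of height at most `B`. So it has the exact order of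
magnitude `H ^ (-σ)` for the points of height up to `H ^ (∑ k_i e_i / (θ + ∑ e_i))`, an exponent
greater than `1`.
-/

namespace Pool.Agent.Results.MP_2ae8fe_ag.CoversOfEveryVariety

open MvPolynomial Pool.Agent.R870.RC Pool.Agent.Helper17.RV

theorem result (n m s : ℕ) (E : Set (MvPolynomial (Fin (n + 1)) ℚ))
    (hE : ∀ P ∈ E, ∃ e, P.IsHomogeneous e) (hprime : (Ideal.span E).IsPrime)
    (hdim : Algebra.trdeg ℚ (MvPolynomial (Fin (n + 1)) ℚ ⧸ Ideal.span E) = m + 1)
    (k e : Fin s → ℕ) (hk : ∀ i, 1 ≤ k i) :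
    (∀ H : ℕ, (Systems n (fun i => k i * e i) H).Finite ∧
      (Systems n (fun i => k i * e i) H).ncard =
        (2 * H + 1) ^ (∑ i, (n + k i * e i).choose (k i * e i))) ∧
    (m + 2 ≤ ∑ i, (k i - 1) * e i → ∃ C : ℝ, 0 < C ∧ ∀ H B : ℕ, 1 ≤ H → 1 ≤ B →
      ((CovPoint E k e H B).ncard : ℝ) ≤ C * (H : ℝ) ^ (-∑ i, (1 - 1 / (k i : ℝ))) *
        (1 + (B : ℝ) ^ (m + 1 + ∑ i, e i) / (H : ℝ) ^ (∑ i, k i * e i)) *
          ((Systems n (fun i => k i * e i) H).ncard : ℝ)) ∧
    (m + 1 ≤ ∑ i, (k i - 1) * e i → ¬ IsLin E → ∃ C : ℝ, 0 < C ∧ ∀ H B : ℕ, 1 ≤ H → 1 ≤ B →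
      ((CovPoint E k e H B).ncard : ℝ) ≤ C * (H : ℝ) ^ (-∑ i, (1 - 1 / (k i : ℝ))) *
        (1 + (B : ℝ) ^ ((m : ℝ) + 1 - 1 / ((m : ℝ) + 3) + ((∑ i, e i : ℕ) : ℝ)) /
          (H : ℝ) ^ (∑ i, k i * e i)) *
          ((Systems n (fun i => k i * e i) H).ncard : ℝ)) ∧
    (∀ B₀ : ℕ, (∃ x : Fin (n + 1) → ℤ, x ≠ 0 ∧ (∀ j, |x j| ≤ B₀) ∧ InVar E x) →
      ∃ c : ℝ, 0 < c ∧ ∀ H B : ℕ, 1 ≤ H → B₀ ≤ B →
        c * (H : ℝ) ^ (-∑ i, (1 - 1 / (k i : ℝ))) *
          ((Systems n (fun i => k i * e i) H).ncard : ℝ) ≤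
            ((CovPoint E k e H B).ncard : ℝ)) := by
  refine ⟨fun H => ⟨fin_systems _ H, ?_⟩, covers' n m s E hE hprime hdim k e hk⟩
  rw [card_systems, ← Finset.prod_pow_eq_pow_sum]
  refine Finset.prod_congr rfl fun i _ => ?_
  rw [card_FF, card_Mo]

end Pool.Agent.Results.MP_2ae8fe_ag.CoversOfEveryVariety
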