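import Pool.Agent.Helper17.DA.Final

set_option autoImplicit false

/-!
# Rational points of varieties of general type: the degree aspect

Let `V` be any projective algebraic set over `ℚ` of dimension `m` in projective `n`-space, the
zero set of a set `E` of forms (its dimension is `m` if and only if its homogeneous coordinate ring
has transcendence degree `m + 1`). For `s` degrees `d_1, …, d_s ≥ 1` and integral forms
`F = (F_1, …, F_s)` of these degrees let `V_F = V ∩ {F_1 = ⋯ = F_s = 0}`. If `V` and `V_F` are
smooth, `dim V_F = m - s` and one of the degrees is at least `m + 2`, then `V_F` is of general type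
(Mori, Fujita).

The results on random complete intersections with coefficients of absolute value at most `H` fix
the degrees and let `H` tend to infinity. Here the degree `D = d_j` of one of the forms tends to
infinity, uniformly in `H ≥ 1`, in the number of the forms and in the other degrees. Let

  `R = C * ((D + 1) ^ (-1/3) + B ^ (m + 1) / (2 * H + 1) ^ (D + 1))`,

where `C` depends only on `V`. For all `H, B ≥ 1` we prove:

* the proportion of the `F` for which `V_F` has a rational point of height at most `B`, other than
  the `n + 1` coordinate points of the projective space, is at most `R`;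
* let `k` of the coordinate points lie on `V`, and let `S` be a set of `k'` of these points. The
  proportion of the `F` for which the rational points of height at most `B` of `V_F` are exactly
  the points in `S` is `p ^ k' * (1 - p) ^ (k - k')` up to an error of at most `R`, where
  `p = 1 / (2 * H + 1) ^ s`.

So even when all the coefficients are `-1`, `0` or `1`, almost all `V_F` of large degree `D` have no
rational point of height at most `(2 * H + 1) ^ (u * (D + 1) / (m + 1))`, `u < 1`, apart from the
coordinate points, which lie on `V_F` with the probability `p`, independently of each other.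
-/

namespace Pool.Agent.Results.MP_2ae8fe_ag.DegreeAspect

open MvPolynomial Pool.Agent.R870.RC Pool.Agent.Helper17.RV Pool.Agent.Helper17.DA

theorem result (n m : ℕ) (E : Set (MvPolynomial (Fin (n + 1)) ℚ))
    (hE : ∀ P ∈ E, ∃ e, P.IsHomogeneous e)
    (hdim : Algebra.trdeg ℚ (MvPolynomial (Fin (n + 1)) ℚ ⧸ Ideal.span E) = m + 1) :
    (∀ (s : ℕ) (d : Fin s → ℕ) (H : ℕ), (Systems n d H).Finite ∧
      (Systems n d H).ncard = (2 * H + 1) ^ (∑ i, (n + d i).choose (d i))) ∧
    ∃ C : ℝ, 0 < C ∧ ∀ (s : ℕ) (d : Fin s → ℕ) (j : Fin s) (H B : ℕ),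
      (∀ l, 1 ≤ d l) → 1 ≤ H → 1 ≤ B →
      ((OtherPoint E d H B).ncard : ℝ) / ((Systems n d H).ncard : ℝ) ≤
        C * (((d j : ℝ) + 1) ^ (-(1 / 3) : ℝ) + (B : ℝ) ^ (m + 1) / (2 * H + 1) ^ (d j + 1)) ∧
      ∀ I S : Finset (Fin (n + 1)), (∀ i, i ∈ I ↔ InVar E (Pi.single i 1)) → S ⊆ I →
        |((ExactPoints E d H B S).ncard : ℝ) / ((Systems n d H).ncard : ℝ) -
          (1 / (2 * H + 1) ^ s) ^ S.card * (1 - 1 / (2 * H + 1) ^ s) ^ (I.card - S.card)| ≤
        C * (((d j : ℝ) + 1) ^ (-(1 / 3) : ℝ) + (B : ℝ) ^ (m + 1) / (2 * H + 1) ^ (d j + 1)) := by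
  refine ⟨fun s d H => ⟨fin_systems d H, ?_⟩, degree_aspect n m E hE hdim⟩
  rw [card_systems, ← Finset.prod_pow_eq_pow_sum]
  refine Finset.prod_congr rfl fun i _ => ?_
  rw [card_FF, card_Mo]

end Pool.Agent.Results.MP_2ae8fe_ag.DegreeAspect
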