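import Pool.Agent.Helper17.AL.Bad

set_option autoImplicit false

/-!
# Lang's conjecture in arbitrary families: small points over all number fields

Let `X → 𝔸 ^ N` be ANY family of closed subsets of projective `n`-space over `ℚ`, given by forms
`G_1, …, G_q` of degrees `d_1, …, d_q` in `x_0, …, x_n` whose coefficients are polynomials in the
parameters `t_1, …, t_N`. The fibre `X_b`, `b ∈ ℚ ^ N`, is defined by the specialised forms; the
base locus consists of the points which are on all the fibres. For example the fibres may be
varieties of general type, in an arbitrary nonlinear family.

For `B ≥ 1` let `SmallPointParams G B` be the set of the parameters `b ∈ ℚ ^ N` for which, over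
SOME number field `K` of ARBITRARY degree, `X_b` has a `K`-rational point of absolute height at most
`B` outside the base locus.

**Theorem.** There is a constant `C`, which depends only on the family, such that for all `B ≥ 1`,
all `M ≥ 1` and all finite sets `A_1, …, A_N` of at least `M` rational numbers the proportion of
the `b ∈ A_1 × ⋯ × A_N` in `SmallPointParams G B` is at most `C B ^ κ / M`, where
`κ = ∑ d_i N_i ^ 2` and `N_i` is the number of the monomials of degree `d_i`.

So for almost all members of any family (outside the base locus) no exceptional set and no
restriction on the number field are needed for the points of height at most `M ^ δ`, `δ < 1 / κ`.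
The sets `A_i` are arbitrary, for instance the integers of absolute value at most `H`, or `M` powers
of `2`: the bound does not depend on the size of the parameters, only on their number.

The proof: for a point `x`, with coordinates in a number field of arbitrary degree, let `v` be the
vector of the monomials of degree `d_i` at `x`. The rational vectors `w` with `∑ w_k v_k = 0` are
those orthogonal to finitely many integral vectors `z` of size at most `C H(x) ^ (d_i N_i)`: the
coordinates of `v` with respect to a rational basis of the span of its entries are quotients of
determinants of independent conjugates of `v`, which have the same height (Cramer's rule). The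
fibre `X_b` contains `x` only if `∑ z_k g_k(b) = 0` for all these `z`, where the `g_k` are the
coefficients of `G_i`, and if `x` is not in the base locus one of these polynomials is not zero.
There are at most `C B ^ κ` of them, and each vanishes on a proportion `O(1 / M)` of the box, by the
Schwartz–Zippel lemma.
-/

namespace Pool.Agent.Results.MP_2ae8fe_ag.FamiliesOverAllFields

open MvPolynomial Pool.Agent.Helper17.AL

theorem result (n N q : ℕ) (d : Fin q → ℕ)
    (G : Fin q → MvPolynomial (Fin (n + 1)) (MvPolynomial (Fin N) ℚ))
    (hG : ∀ i, (G i).IsHomogeneous (d i)) :
    ∃ C : ℝ, 0 < C ∧ ∀ (B : ℝ) (M : ℕ) (A : Fin N → Finset ℚ),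
      1 ≤ B → 1 ≤ M → (∀ i, M ≤ (A i).card) →
      ((SmallPointParams G B ∩ {b | ∀ i, b i ∈ A i}).ncard : ℝ) ≤
        C * B ^ (∑ i, d i * (n + d i).choose (d i) ^ 2) / M * ∏ i, ((A i).card : ℝ) :=
  fam_all d G hG

end Pool.Agent.Results.MP_2ae8fe_ag.FamiliesOverAllFields
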