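import Pool.Agent.Helper17.RV.Sec

set_option autoImplicit false

/-!
# Random complete intersections of general type in an arbitrary projective variety

Let `V` be an arbitrary projective variety over `ℚ` (with any singularities, geometrically
irreducible or not) of dimension `m` in projective `n`-space, defined by a set `E` of forms that
generates a prime ideal; the dimension of `V` is `m` if and only if its homogeneous coordinate ring
has transcendence degree `m + 1`. For `s` degrees `d_1, …, d_s` and integral forms
`F = (F_1, …, F_s)` of these degrees let `V_F = V ∩ {F_1 = ⋯ = F_s = 0}`.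

If `V` is smooth and `L` is the hyperplane class, then the canonical class of a smooth `V_F` of
dimension `m - s` is `(K_V + (d_1 + ⋯ + d_s) L)` restricted to `V_F`. By Mori and Fujita this is
ample, and `V_F` is of general type, as soon as

* `d_1 + ⋯ + d_s ≥ m + 2`, or
* `d_1 + ⋯ + d_s ≥ m + 1` and `V` is not a linear subspace,

and neither bound can be lowered (linear subspaces, quadrics). In both cases, and for every `V`,
we count the `F` whose coefficients have absolute value at most `H` and for which `V_F` has a
rational point of height at most `B`. Their proportion is, for all `H, B ≥ 1`,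

  at most `C / H ^ s * (1 + B ^ θ / H ^ (d_1 + ⋯ + d_s))`,

with `θ = m + 1` in the first case and `θ = m + 1 - 1 / (m + 3)` in the second one. It is at least
`c / H ^ s` as soon as `V` has a rational point of height at most `B`. Hence the proportion of the
`V_F` of general type with a rational point of height at most `H ^ ((d_1 + ⋯ + d_s) / θ)`, an
exponent greater than `1`, has the exact order of magnitude `H ^ (-s)` when `V` has a rational
point (and it is `0` when `V` has none).

The second case needs a point count of its own: a variety of dimension `m` that is not a linear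
subspace has `O (T ^ (m + 1 - 1 / (m + 3)))` integral vectors of height at most `T` on its affine
cone, the `p`-adic determinant method for hypersurfaces and a projection argument, all of it proved
in the imported files.
-/

namespace Pool.Agent.Results.MP_2ae8fe_ag.SectionsOfEveryVariety

open MvPolynomial Pool.Agent.R870.RC Pool.Agent.Helper17.RV

theorem result (n m s : ℕ) (E : Set (MvPolynomial (Fin (n + 1)) ℚ))
    (hE : ∀ P ∈ E, ∃ e, P.IsHomogeneous e) (hprime : (Ideal.span E).IsPrime)
    (hdim : Algebra.trdeg ℚ (MvPolynomial (Fin (n + 1)) ℚ ⧸ Ideal.span E) = m + 1)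
    (d : Fin s → ℕ) :
    (∀ H : ℕ, (Systems n d H).Finite ∧
      (Systems n d H).ncard = (2 * H + 1) ^ (∑ i, (n + d i).choose (d i))) ∧
    (m + 2 ≤ ∑ i, d i → ∃ C : ℝ, 0 < C ∧ ∀ H B : ℕ, 1 ≤ H → 1 ≤ B →
      ((SecPoint E d H B).ncard : ℝ) ≤ C / (H : ℝ) ^ s *
        (1 + (B : ℝ) ^ (m + 1) / (H : ℝ) ^ (∑ i, d i)) * ((Systems n d H).ncard : ℝ)) ∧
    (m + 1 ≤ ∑ i, d i → ¬ IsLin E → ∃ C : ℝ, 0 < C ∧ ∀ H B : ℕ, 1 ≤ H → 1 ≤ B →
      ((SecPoint E d H B).ncard : ℝ) ≤ C / (H : ℝ) ^ s *
        (1 + (B : ℝ) ^ ((m : ℝ) + 1 - 1 / ((m : ℝ) + 3)) / (H : ℝ) ^ (∑ i, d i)) *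
          ((Systems n d H).ncard : ℝ)) ∧
    (∀ B₀ : ℕ, (∃ x : Fin (n + 1) → ℤ, x ≠ 0 ∧ (∀ j, |x j| ≤ B₀) ∧ InVar E x) →
      ∃ c : ℝ, 0 < c ∧ ∀ H B : ℕ, 1 ≤ H → B₀ ≤ B →
        c / (H : ℝ) ^ s * ((Systems n d H).ncard : ℝ) ≤ ((SecPoint E d H B).ncard : ℝ)) := by
  refine ⟨fun H => ⟨fin_systems d H, ?_⟩, sections n m s E hE hprime hdim d⟩
  rw [card_systems, ← Finset.prod_pow_eq_pow_sum]
  refine Finset.prod_congr rfl fun i _ => ?_
  rw [card_FF, card_Mo]

end Pool.Agent.Results.MP_2ae8fe_ag.SectionsOfEveryVariety
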